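import Pool.Agent.KS6_64.JD.Dims

/-!
# Finite jet determination in every dimension and codimension, and for all products of spheres

Real-analytic generic submanifolds `M` of `ℂᴺ` of real codimension `d`, and their local CR
automorphisms at the points `p` of `M`. We determine all pairs `(N, d)` for which the question of
Baouendi, Ebenfelt and Rothschild (`M` connected and holomorphically nondegenerate, all points `p`)
has a positive answer: apart from the trivial ones (`d = 0` or `d > N`) these are the hypersurfaces
in `ℂᴺ`, `N ≥ 2`, only. In all other cases there is a compact connected real-algebraic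
counterexample, a product of a sphere and circles, at all of whose points all finite jets fail. A
product of spheres has the finite jet property at all its points if none of them is a circle, and
at none of its points otherwise.
-/

set_option autoImplicit false

open Pool.Agent.Results.MP_51bf1a_an.JetDet Pool.Agent.KS6_64.JD

namespace Pool.Agent.Results.MP_51bf1a_an.AllDimensions

/-- (1) For `b : Fin N → Fin d` onto let `Spheres b` be the product in `ℂᴺ` of the unit spheres of the
`d` blocks `{i | b i = j}` of coordinates. It is compact, connected, generic of codimension `d`
and holomorphically nondegenerate. If no block is a single coordinate (no factor is a circle), then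
at every point the local automorphisms are determined by their `k`-jets for some `k`; if some block
is a single coordinate, then at no point and for no `k`.
(2) All connected holomorphically nondegenerate generic submanifolds of `ℂᴺ` of codimension `d` have
finite jet determination at all their points if and only if `d = 0`, or `N < d`, or `d = 1` and
`2 ≤ N`.
(3) For all other `N`, `d` there is a product of `d` spheres in `ℂᴺ`, one of them a circle. -/
theorem result :
    (∀ (N d : ℕ) (b : Fin N → Fin d), Function.Surjective b →
      IsCompact (Spheres b) ∧ IsConnected (Spheres b) ∧ IsGenericSubmanifold d (Spheres b) ∧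
      HolomorphicallyNondegenerate d (Spheres b) ∧
      ((∀ i, ∃ i', i' ≠ i ∧ b i' = b i) →
        ∀ p ∈ Spheres b, ∃ k, DeterminedByJets (Spheres b) p k) ∧
      ((∃ i, ∀ i', b i' = b i → i' = i) →
        ∀ p ∈ Spheres b, ∀ k, ¬ DeterminedByJets (Spheres b) p k)) ∧
    (∀ N d : ℕ, (∀ M : Set (Fin N → ℂ), IsGenericSubmanifold d M → IsConnected M →
      HolomorphicallyNondegenerate d M → ∀ p ∈ M, ∃ k, DeterminedByJets M p k) ↔
        d = 0 ∨ N < d ∨ (d = 1 ∧ 2 ≤ N)) ∧
    (∀ N d : ℕ, ¬ (d = 0 ∨ N < d ∨ (d = 1 ∧ 2 ≤ N)) →
      ∃ b : Fin N → Fin d, Function.Surjective b ∧ ∃ i, ∀ i', b i' = b i → i' = i) := by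
  refine ⟨fun N d b hb => ⟨compact b, connected b hb, generic b, nondegenerate b,
    spheres_determined hb, ?_⟩, dimension_iff, fun N d h => exists_blocks h⟩
  rintro ⟨i, hi⟩ p hp k
  exact no_jets hi hp k

end Pool.Agent.Results.MP_51bf1a_an.AllDimensions
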